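import Pool.Agent.N581.RB.Poly

/-!
# The directed red-blue cut problem is NP-complete

The reduction is from the clique problem: given a graph and `k`, take a vertex for every vertex and
for every edge of the graph, a blue arc from `s` to every edge, red arcs from every edge to its two
ends and from every vertex of the graph to `t`. To make sure that the set `X` contains `s` and does
not contain `t`, both are replaced by complete digraphs with `2 k + 2` vertices, with all arcs into
the first one and all arcs from the second one.
-/

set_option autoImplicit false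

namespace Pool.Agent.Results.MP_ac2b6c_lc.RedBlueCutNPComplete

open Pool.Agent.NPC Pool.Agent.N581.RB

/-- The directed red-blue cut problem is NP-complete, for digraphs with loops and parallel arcs
allowed (first conjunct) and for simple digraphs (second conjunct); every language in NP has a
polynomial-time reduction to it that produces only simple digraphs (third conjunct); and there is a
polynomial-time algorithm for the problem if and only if P = NP (last conjunct). -/
theorem result :
    (InNPP (fun I : Inst => IsDigraph I ∧ HasCut I) ∧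
      NPHardP (fun I : Inst => IsDigraph I ∧ HasCut I)) ∧
    (InNPP (fun I : Inst => (IsDigraph I ∧ IsSimple I) ∧ HasCut I) ∧
      NPHardP (fun I : Inst => (IsDigraph I ∧ IsSimple I) ∧ HasCut I)) ∧
    (∀ L : Set (List Bool), InNP L → ∃ f : List Bool → Inst, PolyTime (fun x => bits (f x)) ∧
      ∀ x, IsDigraph (f x) ∧ IsSimple (f x) ∧ (x ∈ L ↔ HasCut (f x))) ∧
    ((∃ A : List Bool → List Bool, PolyTime A ∧
        ∀ I : Inst, IsDigraph I → (A (bits I) = [true] ↔ HasCut I)) ↔
      ∀ L : Set (List Bool), InNP L → InP L) := by
  refine ⟨⟨inNPP_of_class pp_isDigraph, (npHard_of_class fun _ h _ => h).toNPHardP⟩,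
    ⟨inNPP_of_class (pp_isDigraph.and pp_isSimple),
      (npHard_of_class fun _ h h' => ⟨h, h'⟩).toNPHardP⟩, ?_, ?_, ?_⟩
  · intro L hL
    obtain ⟨f, hf, h1, h2⟩ := hardPr_cut L hL
    exact ⟨f, PC.toPolyTime hf, fun x => ⟨(h1 x).1, (h1 x).2, h2 x⟩⟩
  · rintro ⟨A, hA, hd⟩ L hL
    obtain ⟨f, hf, h1, h2⟩ := hardPr_cut L hL
    exact ⟨fun x => A (bits (f x)), H642R2.TMSim.polyTime_comp (g := A) hA (PC.toPolyTime hf),
      fun x => (h2 x).trans (hd _ (h1 x).1).symm⟩
  · intro h
    obtain ⟨V, hV, hd⟩ := h _ (inNPP_of_class pp_isDigraph)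
    refine ⟨V, hV, fun I hI => ?_⟩
    rw [← hd, bits_mem_lang]
    exact ⟨fun h => h.2, fun h => ⟨hI, h⟩⟩

end Pool.Agent.Results.MP_ac2b6c_lc.RedBlueCutNPComplete
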